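import Mathlib
import Pool.Agent.U499.EPT.GenVal

set_option autoImplicit false

/-! # MP_600e55_nt: valuations and partitions of the group of square classes, `p = 2`

Let `F` be a field of characteristic not two with finitely many square classes.  If `F*` has a
partition modulo a subgroup `P` (containing the squares and `-1`) into proper subgroups such that
`x` and `1 + x` lie in the same part for all `x ∉ P`, then, under the conditions (a) or (b) below,
there is a valuation ring `O` of `F` with `2 ∈ O*`, `1 + m ⊆ F*²` and `O* F*² ≠ F*`, the maximal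
pro-`2` Galois group is the decomposition group of a valuation with nontrivial inertia, and the
conclusion of Q1 holds.  If `-1` is a square and there are at least four square classes, such
valuation rings exist if and only if such partitions (modulo `P = F*²`) exist. -/

namespace Pool.Agent.Results.MP_600e55_nt.SquareClassPartitions

open Pool.Agent.Y920.ETC

/-- the group of squares of `F*` -/
def squares (F : Type) [Field F] : Subgroup Fˣ := (powMonoidHom 2 : Fˣ →* Fˣ).range

/-- the group of the nonzero values of `x² - a y²`: the norm group of `F(√a)` if `a` is not a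
square -/
def normGroup {F : Type} [Field F] (a : Fˣ) : Subgroup Fˣ where
  carrier := {c | ∃ x y : F, (c : F) = x ^ 2 - a * y ^ 2}
  one_mem' := (nG a).one_mem
  mul_mem' := (nG a).mul_mem
  inv_mem' := (nG a).inv_mem

/-- `K` is the compositum of the finite Galois extensions of `F` of 2-power degree -/
def IsMaximalTwoExtension {F : Type} [Field F] (K : IntermediateField F (AlgebraicClosure F)) :
    Prop :=
  K = sSup {L : IntermediateField F (AlgebraicClosure F) |
    FiniteDimensional F L ∧ IsGalois F L ∧ ∃ k : ℕ, Module.finrank F L = 2 ^ k}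

/-- `H` is the decomposition group in `Gal(K/F)` of a valuation of `K`, and the inertia group is
not trivial -/
def IsDecompositionGroup {F : Type} [Field F] {K : IntermediateField F (AlgebraicClosure F)}
    (H : Subgroup (↥K ≃ₐ[F] ↥K)) : Prop :=
  ∃ (Γ : Type) (_ : LinearOrderedCommGroupWithZero Γ) (w : Valuation K Γ),
    (∀ σ : ↥K ≃ₐ[F] ↥K, σ ∈ H ↔ ∀ x : ↥K, (w (σ x) ≤ 1 ↔ w x ≤ 1)) ∧
    ∃ σ ∈ H, σ ≠ 1 ∧ ∀ x : ↥K, w x ≤ 1 → w (σ x - x) < 1

/-- `G` is the free pro-2 product of its subgroups `H i` (for a pro-2 group `G` and closed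
`H i`) -/
def IsFreeProduct {G : Type} [Group G] [TopologicalSpace G] {n : ℕ}
    (H : Fin n → Subgroup G) : Prop :=
  ∀ (P : Type) [Group P] [Finite P], (∃ k : ℕ, Nat.card P = 2 ^ k) →
    ∀ φ : (i : Fin n) → (H i →* P), (∀ i, IsOpen ((φ i).ker : Set (H i))) →
      ∃! ψ : G →* P, IsOpen (ψ.ker : Set G) ∧ ∀ i, ∀ x : H i, ψ (x : G) = φ i x

/-- the conclusion of Q1 for `p = 2`: `Gal(K/F)` is the free pro-2 product of finitely many closed
subgroups of type (i), (ii) or (iii) -/
def ConclusionOfQ1 {F : Type} [Field F] (K : IntermediateField F (AlgebraicClosure F)) : Prop :=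
  ∃ (n : ℕ) (H : Fin n → Subgroup (↥K ≃ₐ[F] ↥K)),
    (∀ i, IsClosed (H i : Set (↥K ≃ₐ[F] ↥K))) ∧ IsFreeProduct H ∧
    ∀ i, Nonempty (H i ≃ₜ* Multiplicative (PadicInt 2)) ∨ IsDecompositionGroup (H i) ∨
      Nat.card (H i) = 2

/-- `X` is a partition of `F*/P` into proper subgroups: the members of `X` are subgroups `K ≠ F*`
of `F*` containing `P`, they cover `F*`, and any two of them meet in `P` -/
structure IsPartition (F : Type) [Field F] (P : Subgroup Fˣ) (X : Set (Subgroup Fˣ)) : Prop where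
  le : ∀ K ∈ X, P ≤ K
  ne_top : ∀ K ∈ X, K ≠ ⊤
  cover : ∀ x : Fˣ, ∃ K ∈ X, x ∈ K
  inf : ∀ K ∈ X, ∀ K' ∈ X, K ≠ K' → K ⊓ K' = P

/-- if `x ∉ P` lies in a part, so does `1 + x` -/
def RespectsSums {F : Type} [Field F] (P : Subgroup Fˣ) (X : Set (Subgroup Fˣ)) : Prop :=
  ∀ x v : Fˣ, x ∉ P → (v : F) = 1 + x → ∀ K ∈ X, x ∈ K → v ∈ K

/-- if `a ∉ P` lies in a part, so do the elements of `N(a)` -/
def RespectsNorms {F : Type} [Field F] (P : Subgroup Fˣ) (X : Set (Subgroup Fˣ)) : Prop :=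
  ∀ a : Fˣ, a ∉ P → ∀ K ∈ X, a ∈ K → normGroup a ≤ K

/-- `2` is a unit of `O`, `1 + m ⊆ F*²`, and `O* F*² ≠ F*` -/
structure IsCompatible {F : Type} [Field F] (O : ValuationSubring F) : Prop where
  inv_mem : (2 : F)⁻¹ ∈ O
  one_add : ∀ x : F, x ∈ O → x⁻¹ ∉ O → ∃ y : F, y ^ 2 = 1 + x
  ne_top : O.unitGroup ⊔ squares F ≠ ⊤

theorem result (F : Type) [Field F] (h2 : (2 : F) ≠ 0) (hfin : (squares F).index ≠ 0) :
    -- from partitions to valuation rings and Galois groups
    (∀ (P : Subgroup Fˣ) (X : Set (Subgroup Fˣ)), squares F ≤ P → (-1 : Fˣ) ∈ P →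
      IsPartition F P X → RespectsSums P X →
      -- (a) `1 + x` is a square if it is in `P`, `x ∉ P`; `-1` is a square or the parts have
      -- index more than two
      (((∀ x v : Fˣ, x ∉ P → (v : F) = 1 + x → v ∈ P → v ∈ squares F) ∧
          ((-1 : Fˣ) ∈ squares F ∨ ∀ K ∈ X, 2 < K.index)) ∨
      -- (b) `P` is the union of `F*²` and `-F*²`; the parts and the group of the sums of two
      -- squares and their negatives have index more than two
        ((∀ x ∈ P, x ∈ squares F ∨ -x ∈ squares F) ∧ (∀ K ∈ X, 2 < K.index) ∧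
          2 < (normGroup (-1 : Fˣ) ⊔ Subgroup.zpowers (-1)).index)) →
      (∃ O : ValuationSubring F, IsCompatible O) ∧
      ∀ K : IntermediateField F (AlgebraicClosure F), IsMaximalTwoExtension K →
        IsDecompositionGroup (⊤ : Subgroup (↥K ≃ₐ[F] ↥K)) ∧ ConclusionOfQ1 K) ∧
    -- the characterisation if `-1` is a square
    ((-1 : Fˣ) ∈ squares F → 4 ≤ (squares F).index → List.TFAE
      [∃ O : ValuationSubring F, IsCompatible O,
       ∃ X : Set (Subgroup Fˣ), IsPartition F (squares F) X ∧ RespectsSums (squares F) X,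
       ∃ X : Set (Subgroup Fˣ), IsPartition F (squares F) X ∧ RespectsNorms (squares F) X]) := by
  have comp : ∀ O : ValuationSubring F, Sqr O →
      (∃ c : Fˣ, ∀ f : Fˣ, ¬ (((c * f ^ 2 : Fˣ) : F) ∈ O ∧ (((c * f ^ 2)⁻¹ : Fˣ) : F) ∈ O)) →
      IsCompatible O := by
    rintro O hO ⟨c, hc⟩
    refine ⟨hO.1, fun x hx hx' => ?_, fun e => ?_⟩
    · obtain ⟨y, hy⟩ := hO.2.2 x hx hx'
      exact ⟨y, by rw [hy, pow_two]⟩
    · have h1 : c ∈ O.unitGroup ⊔ squares F := by
        rw [e]
        exact Subgroup.mem_top _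
      obtain ⟨u, hu, s, ⟨f, hf⟩, hus⟩ := Subgroup.mem_sup.1 h1
      have hf' : f ^ 2 = s := hf
      have h3 : c * (f⁻¹) ^ 2 = u := by
        rw [← hus, ← hf', inv_pow, mul_inv_cancel_right]
      apply hc f⁻¹
      rw [h3]
      have h4 : O.valuation (u : F) = 1 := (O.mem_unitGroup_iff u).1 hu
      constructor
      · rw [← O.valuation_le_one_iff, h4]
      · rw [← O.valuation_le_one_iff, Units.val_inv_eq_inv_val, map_inv₀, h4, inv_one]
  have main : ∀ (P : Subgroup Fˣ) (X : Set (Subgroup Fˣ)), squares F ≤ P → (-1 : Fˣ) ∈ P →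
      IsPartition F P X → RespectsSums P X →
      (((∀ x v : Fˣ, x ∉ P → (v : F) = 1 + x → v ∈ P → v ∈ squares F) ∧
          ((-1 : Fˣ) ∈ squares F ∨ ∀ K ∈ X, 2 < K.index)) ∨
        ((∀ x ∈ P, x ∈ squares F ∨ -x ∈ squares F) ∧ (∀ K ∈ X, 2 < K.index) ∧
          2 < (normGroup (-1 : Fˣ) ⊔ Subgroup.zpowers (-1)).index)) →
      ∃ O : ValuationSubring F, Sqr O ∧
        ∃ c : Fˣ, ∀ f : Fˣ, ¬ (((c * f ^ 2 : Fˣ) : F) ∈ O ∧ (((c * f ^ 2)⁻¹ : Fˣ) : F) ∈ O) := by
    intro P X hsq hneg hX hs hor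
    rcases hor with ⟨hst, hor⟩ | ⟨hP, hidx, hW⟩
    · have hF : Pool.Agent.U499.EPT.FPart F P X :=
        ⟨hsq, hneg, hX.le, hX.ne_top, hX.cover, hX.inf⟩
      have hS : Pool.Agent.U499.EPT.Sums P X := fun x v hx hv K hK hxK =>
        ⟨hs x v hx hv K hK hxK, hst x v hx hv⟩
      exact Pool.Agent.U499.EPT.val_of_part h2 hfin hF
        (Pool.Agent.U499.EPT.norms_of_sums hF hS) hor
    · have hN := Pool.Agent.U499.EPT.normsW_of_sums (P := P) (X := X) hsq hneg hX.le hs
      have hF : Pool.Agent.U499.EPT.FGPart F X := by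
        refine ⟨fun K hK => hsq.trans (hX.le K hK), fun K hK => hX.le K hK hneg, hX.ne_top,
          hX.cover, fun K hK K' hK' hne x hx hx' => ?_, fun K hK a haK ha ha' v hv => ?_⟩
        · rw [neg_one_mul]
          refine hP x ?_
          rw [← hX.inf K hK K' hK' hne]
          exact ⟨hx, hx'⟩
        · refine hN a (fun haP => ?_) K hK haK v hv
          rw [neg_one_mul] at ha'
          exact (hP a haP).elim ha ha'
      exact Pool.Agent.U499.EPT.val_of_gpart h2 hfin hF hidx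
        (normGroup (-1 : Fˣ) ⊔ Subgroup.zpowers (-1))
        (Subgroup.mem_sup_right (Subgroup.mem_zpowers _))
        (fun v hv => Subgroup.mem_sup_left hv) hW
  refine ⟨fun P X hsq hneg hX hs hor => ?_, fun hneg h4 => ?_⟩
  · obtain ⟨O, hO, hc⟩ := main P X hsq hneg hX hs hor
    refine ⟨⟨O, comp O hO hc⟩, fun K hK => ?_⟩
    have hD : DecInert F K := decInert Pool.Agent.Y620.ET.t_EXTV Pool.Agent.Y37.ET.t_MAX2 F h2 O hO
      hc K hK
    refine ⟨?_, ?_⟩
    · obtain ⟨Γ, hΓ, w, hw, σ, hσ, hσw⟩ := hD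
      exact ⟨Γ, hΓ, w, fun τ => ⟨fun _ x => hw τ x, fun _ => trivial⟩, σ, trivial, hσ, hσw⟩
    · obtain ⟨n, H, h3, h5, h6⟩ := efratTwo F K hD
      refine ⟨n, H, h3, h5, fun i => ?_⟩
      rcases h6 i with h7 | h7 | h7
      · exact Or.inl h7
      · exact Or.inr (Or.inl h7)
      · exact Or.inr (Or.inr h7.2)
  · tfae_have 1 → 3 := by
      rintro ⟨O, hO⟩
      obtain ⟨X, hX, hN⟩ := Pool.Agent.U499.EPT.part_of_val h2 hfin h4 hneg O
        ⟨hO.inv_mem, h2, fun x hx hx' => by
          obtain ⟨y, hy⟩ := hO.one_add x hx hx'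
          exact ⟨y, by rw [← hy, pow_two]⟩⟩ hO.ne_top
      exact ⟨X, ⟨hX.le, hX.ne_top, hX.cover, hX.inf⟩,
        fun a ha K hK haK v hv => (hN a ha K hK haK v hv).1⟩
    tfae_have 3 → 2 := by
      rintro ⟨X, hX, hN⟩
      have hF : Pool.Agent.U499.EPT.FPart F (squares F) X :=
        ⟨le_rfl, hneg, hX.le, hX.ne_top, hX.cover, hX.inf⟩
      have hN' : Pool.Agent.U499.EPT.Norms (squares F) X :=
        fun a ha K hK haK v hv => ⟨hN a ha K hK haK hv, fun h => h⟩
      have hS := Pool.Agent.U499.EPT.sums_of_norms hF hN'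
      exact ⟨X, hX, fun x v hx hv K hK hxK => (hS x v hx hv K hK hxK).1⟩
    tfae_have 2 → 1 := by
      rintro ⟨X, hX, hs⟩
      obtain ⟨O, hO, hc⟩ := main (squares F) X le_rfl hneg hX hs
        (Or.inl ⟨fun _ _ _ _ h => h, Or.inl hneg⟩)
      exact ⟨O, comp O hO hc⟩
    tfae_finish

end Pool.Agent.Results.MP_600e55_nt.SquareClassPartitions
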