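import Pool.Agent.U863.CG.FieldVal

/-! # MP_600e55_nt: Efrat's conjecture for fields with a connected graph of independent symbols, `p = 2`

Let `F` be a field of characteristic `≠ 2` in which `-1` is a square, and let `a_1, ..., a_n`,
`n ≥ 2`, be a basis of `F*/F*²` such that the different nonzero ones among the symbols `{a_i, a_j}`
are linearly independent in `K_2(F)/2`, `{a_i, a_j} = {a_i, a_k} ≠ 0` only for `j = k`, and the graph
of the pairs with `{a_i, a_j} ≠ 0` is connected.

Theorem.  The maximal pro-2 Galois group of `F` is the decomposition group of a valuation with
nontrivial inertia group, so the conclusion of Q1 holds with one factor of type (ii).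

Outline.  The linkage of quaternion algebras implies that the graph has no induced path with three
edges and no induced cycle of length four (`U863/CG/Comb.lean`), so there is `a_d` with
`{a_d, a_j} ≠ 0` for all `j ≠ d`, and the colour `{a_d, a_j}` does not occur elsewhere
(`exists_apex`). Hence all elements outside a subgroup `H` of index two are rigid (`rigid_apex`).  If
there is an element which is not rigid, a direct argument with sums of four elements excludes the
exceptional case in the theory of rigid elements (`pcd`), so there is a valuation ring whose units
are in `H` and for which the elements of `1 + m` are squares; otherwise all elements are rigid, and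
`H` can be replaced by the group of squares.  The starting library turns this into the statement on
the maximal 2-extension. -/

set_option autoImplicit false

namespace Pool.Agent.Results.MP_600e55_nt.ConnectedSymbolGraphs

open Pool.Agent.U863.CG Pool.Agent.Y920.ETC

theorem result (F : Type) [Field F] (h2 : (2 : F) ≠ 0) (hi : ∃ x : F, x ^ 2 = -1)
    -- a basis of `F*/F*²` with at least two members
    (n : ℕ) (hn : 2 ≤ n) (a : Fin n → Fˣ) (hb : SquareClassBasis a)
    -- conditions on the symbols `{a_i, a_j}` in `K_2(F)/2`
    (hI : IndependentSymbols a) (hD : DistinctSymbols a) (hC : ConnectedSymbols a)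
    -- `K` is the maximal 2-extension of `F`
    (K : IntermediateField F (AlgebraicClosure F)) (hK : IsMax2 F K) :
    -- all of `Gal(K/F)` is the decomposition group of `w`, and the inertia group is not trivial
    ∃ (Γ : Type) (_ : LinearOrderedCommGroupWithZero Γ) (w : Valuation K Γ),
      (∀ (σ : K ≃ₐ[F] K) (x : K), w (σ x) ≤ 1 ↔ w x ≤ 1) ∧
      ∃ σ : K ≃ₐ[F] K, σ ≠ 1 ∧ ∀ x : K, w x ≤ 1 → w (σ x - x) < 1 :=
  decInert_of_connected h2 hi hn hb hI hD hC K hK

end Pool.Agent.Results.MP_600e55_nt.ConnectedSymbolGraphs
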