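import Mathlib
import Pool.Agent.U499.ETV.Gal

set_option autoImplicit false

/-! # MP_600e55_nt: fields whose norm groups have at most four classes, `p = 2`

Let `F` be a field of characteristic not two with finitely many, but more than sixteen, square
classes such that the norm group `N(a)` of `F(√a)` has at most four classes modulo `F*²` for all
`a` outside `F*²` and `-F*²`. If `-1` is a square or `N(-1)` has index more than four in `F*`, the
maximal pro-`2` Galois group is the decomposition group of a valuation with nontrivial inertia, and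
the conclusion of Q1 holds. -/

namespace Pool.Agent.Results.MP_600e55_nt.FourNormClasses

open Pool.Agent.Y920.ETC

/-- the group of squares of `F*` -/
def squares (F : Type) [Field F] : Subgroup Fˣ := (powMonoidHom 2 : Fˣ →* Fˣ).range

/-- the group of the nonzero values of `x² - a y²`: the norm group of `F(√a)` if `a` is not a
square -/
def normGroup {F : Type} [Field F] (a : Fˣ) : Subgroup Fˣ where
  carrier := {c | ∃ x y : F, (c : F) = x ^ 2 - a * y ^ 2}
  one_mem' := (nG a).one_mem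
  mul_mem' := (nG a).mul_mem
  inv_mem' := (nG a).inv_mem

/-- `K` is the compositum of the finite Galois extensions of `F` of 2-power degree -/
def IsMaximalTwoExtension {F : Type} [Field F] (K : IntermediateField F (AlgebraicClosure F)) :
    Prop :=
  K = sSup {L : IntermediateField F (AlgebraicClosure F) |
    FiniteDimensional F L ∧ IsGalois F L ∧ ∃ k : ℕ, Module.finrank F L = 2 ^ k}

theorem result (F : Type) [Field F] (h2 : (2 : F) ≠ 0)
    -- finitely many, but more than sixteen, square classes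
    (hfin : (squares F).index ≠ 0) (h16 : 16 < (squares F).index)
    -- the norm groups `N(a)`, `a ≠ 1, -1` modulo squares, have at most four classes
    (hsmall : ∀ a : Fˣ, a ∉ squares F → -a ∉ squares F →
      (squares F).relIndex (normGroup a) ≤ 4)
    -- `-1` is a square, or `N(-1)` has index more than four
    (hneg : (-1 : Fˣ) ∈ squares F ∨ 4 < (normGroup (-1 : Fˣ)).index) :
    -- a valuation ring whose one-units are squares and whose units have few classes
    (∃ O : ValuationSubring F, (2 : F)⁻¹ ∈ O ∧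
      (∀ x : F, x ∈ O → x⁻¹ ∉ O → ∃ y : F, y ^ 2 = 1 + x) ∧
      (squares F).relIndex (O.unitGroup ⊔ squares F) ≤
        max 16 (4 * (squares F).relIndex (normGroup (-1 : Fˣ)))) ∧
    ∀ K : IntermediateField F (AlgebraicClosure F), IsMaximalTwoExtension K →
    -- `Gal(K/F)` is the decomposition group of a valuation with nontrivial inertia
    (∃ (Γ : Type) (_ : LinearOrderedCommGroupWithZero Γ) (w : Valuation K Γ),
      (∀ (σ : K ≃ₐ[F] K) (x : K), w (σ x) ≤ 1 ↔ w x ≤ 1) ∧
      ∃ σ : K ≃ₐ[F] K, σ ≠ 1 ∧ ∀ x : K, w x ≤ 1 → w (σ x - x) < 1) ∧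
    -- the conclusion of Q1 for `p = 2`
    ∃ (n : ℕ) (H : Fin n → Subgroup (↥K ≃ₐ[F] ↥K)),
      (∀ i, IsClosed (H i : Set (↥K ≃ₐ[F] ↥K))) ∧
      (∀ (P : Type) [Group P] [Finite P], (∃ k : ℕ, Nat.card P = 2 ^ k) →
        ∀ φ : (i : Fin n) → (H i →* P), (∀ i, IsOpen ((φ i).ker : Set (H i))) →
          ∃! ψ : (↥K ≃ₐ[F] ↥K) →* P,
            IsOpen (ψ.ker : Set (↥K ≃ₐ[F] ↥K)) ∧
            ∀ i, ∀ x : H i, ψ (x : ↥K ≃ₐ[F] ↥K) = φ i x) ∧
      (∀ i,
        Nonempty (H i ≃ₜ* Multiplicative (PadicInt 2)) ∨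
        (∃ (Γ : Type) (_ : LinearOrderedCommGroupWithZero Γ) (w : Valuation (↥K) Γ),
          (∀ σ : ↥K ≃ₐ[F] ↥K, σ ∈ H i ↔ ∀ x : ↥K, (w (σ x) ≤ 1 ↔ w x ≤ 1)) ∧
          ∃ σ ∈ H i, σ ≠ 1 ∧ ∀ x : ↥K, w x ≤ 1 → w (σ x - x) < 1) ∨
        ((2 : ℕ) = 2 ∧ Nat.card (H i) = 2)) := by
  obtain ⟨O, hO, hOc, hc⟩ := Pool.Agent.U499.ETV.val_four h2 hfin h16 hsmall hneg
  refine ⟨⟨O, hO.1, ?_, ?_⟩, ?_⟩
  · intro x hx hx'
    obtain ⟨y, hy⟩ := hO.2.2 x hx hx'
    exact ⟨y, by rw [hy, pow_two]⟩
  · rcases hOc with h1 | ⟨-, h1⟩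
    · exact h1.trans (le_max_left _ _)
    · exact h1.trans (le_max_right _ _)
  · intro K hK
    have hD : DecInert F K := decInert Pool.Agent.Y620.ET.t_EXTV Pool.Agent.Y37.ET.t_MAX2 F h2 O hO
      hc K hK
    exact ⟨hD, efratTwo F K hD⟩

end Pool.Agent.Results.MP_600e55_nt.FourNormClasses
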