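import Pool.Agent.U863.ST.Gal

/-! # MP_600e55_nt: valuations from connected graphs of isolated symbols, `p` odd

Let `p` be odd, let `F` contain a primitive `p`-th root of unity, and let `a_1, ..., a_n`, `n ≥ 2`,
generate `F*/F*^p`.  Call a pair `{i,j}` isolated if some Steinberg symbol `F* × F* → ℤ/p` does not
vanish at `(a_i, a_j)`, but vanishes at all other pairs `(a_k, a_l)`; that is, `{a_i, a_j}` is not in
the subgroup of `K_2(F)/p` generated by the other symbols `{a_k, a_l}`.

Theorem.  If the graph of the isolated pairs is connected (it is enough that it contains a tree with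
the vertices `1, ..., n`), then the maximal pro-`p` Galois group of `F` is the decomposition group of
a valuation with nontrivial inertia.  So the conclusion of the conjecture holds for `F`.

Outline.  For a set `S` of indices let `T_S` be the subgroup of all `x = ∏ a_k^{x_k} y^p` with
`p ∣ x_k` for `k ∈ S`.  If `{i,j}` is isolated, its symbol is the determinant of the coordinates `x_i`
and `x_j`, so `x` and `1 + x` lie in the same line of the plane `F*/T_{ij}`.  The lines are a
partition of this plane, which gives a valuation ring `O` with `1 + m ⊆ T_{ij}` whose units lie in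
one line (`hasVal_of_edge`).  Gluing (`HasVal.glue`): if `1 + m₁ ⊆ T₁`, `1 + m₂ ⊆ T₂` for valuation
rings `O₁`, `O₂`, and `T₁`, `T₂` lie in a proper subgroup `N`, then one of `O₁`, `O₂` contains the
other, or approximation shows that the units of the ring `O₁ O₂` lie in `N`; in each case there is a
valuation ring `O` with `1 + m ⊆ T₁ ∩ T₂` whose units lie in a proper subgroup.  As
`T_{S ∪ {j}} = T_S ∩ T_{ij}` for `i ∈ S`, and both groups lie in `T_{i}`, a tree of isolated pairs
gives a valuation ring for `T_{1,...,n} = F*^p`. -/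

set_option autoImplicit false

namespace Pool.Agent.Results.MP_600e55_nt.SymbolTrees

open Pool.Agent.Results.MP_600e55_nt.SymbolPartitions

/-- a Steinberg symbol on `F` with values in `ℤ/p` -/
def IsSymbol {F : Type} [Field F] (p : ℕ) (c : Fˣ → Fˣ → ZMod p) : Prop :=
  (∀ x y z : Fˣ, c (x * y) z = c x z + c y z) ∧ (∀ x y z : Fˣ, c x (y * z) = c x y + c x z) ∧
    ∀ x y : Fˣ, (x : F) + (y : F) = 1 → c x y = 0

/-- `{i,j}` is isolated: a symbol does not vanish at `(a_i, a_j)`, but vanishes at all `(a_k, a_l)`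
with `{k,l} ≠ {i,j}` -/
def IsIsolated {F : Type} [Field F] (p : ℕ) {n : ℕ} (a : Fin n → Fˣ) (i j : Fin n) : Prop :=
  ∃ c : Fˣ → Fˣ → ZMod p, IsSymbol p c ∧ c (a i) (a j) ≠ 0 ∧
    ∀ k l : Fin n, ¬ (k = i ∧ l = j) → ¬ (k = j ∧ l = i) → c (a k) (a l) = 0

theorem result (p : ℕ) [Fact p.Prime] (hp2 : p ≠ 2) (F : Type) [Field F]
    (hζ : ∃ ζ : F, IsPrimitiveRoot ζ p) (n : ℕ) (hn : 2 ≤ n) (a : Fin n → Fˣ)
    -- the classes of `a_1, ..., a_n` generate `F*/F*^p`
    (hgen : Subgroup.closure (Set.range a) ⊔ powers F p = ⊤)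
    -- a connected graph on the indices, all of whose edges are isolated pairs
    (G : SimpleGraph (Fin n)) (hG : G.Connected) (hsep : ∀ i j, G.Adj i j → IsIsolated p a i j)
    (K : IntermediateField F (AlgebraicClosure F)) (hK : IsMaximalPExtension p K) :
    IsDecompositionGroup (⊤ : Subgroup (↥K ≃ₐ[F] ↥K)) := by
  have hnt : Nontrivial (Fin n) := Fin.nontrivial_iff_two_le.2 hn
  have hp : p.Prime := Fact.out
  have hpF : (p : F) ≠ 0 := by
    obtain ⟨ζ, hζ⟩ := hζ
    have : NeZero p := ⟨hp.ne_zero⟩
    exact hζ.neZero'.ne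
  have h1 := Pool.Agent.U863.ST.hasVal_of_connected hp2 hgen hG (fun i j hij => by
    obtain ⟨c, ⟨h1, h2, h3⟩, h4, h5⟩ := hsep i j hij
    exact ⟨c, ⟨h1, fun x y z => h2 x y z, h3⟩, h4, h5⟩)
  obtain ⟨O, hO⟩ := Pool.Agent.U863.ST.compatible_of_hasVal p hpF h1
  exact Pool.Agent.U863.ST.decomp_of_compatible p hp2 hζ hO K hK

end Pool.Agent.Results.MP_600e55_nt.SymbolTrees
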